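import Pool.Agent.H.MP_da2089_gt.Main

set_option autoImplicit false

namespace Pool.Agent.Results.MP_bddfa7_gt.Main

open Set Pool.Agent.H.MP_da2089_gt

def IsBallean {X : Type*} (ℰ : Set (Set (X × X))) : Prop :=
  {p | p.1 = p.2} ∈ ℰ ∧ (∀ E ∈ ℰ, ∀ F ⊆ E, F ∈ ℰ) ∧ (∀ E ∈ ℰ, ∀ F ∈ ℰ, E ∪ F ∈ ℰ) ∧
    (∀ E ∈ ℰ, Prod.swap ⁻¹' E ∈ ℰ) ∧
    (∀ E ∈ ℰ, ∀ F ∈ ℰ, {p | ∃ y, (p.1, y) ∈ E ∧ (y, p.2) ∈ F} ∈ ℰ) ∧ ∀ x y, ∃ E ∈ ℰ, (x, y) ∈ E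

def Bounded {X : Type*} (ℰ : Set (Set (X × X))) (B : Set X) : Prop :=
  ∃ E ∈ ℰ, ∃ x, B ⊆ {y | (x, y) ∈ E}

def prod {X Y : Type*} (ℰ : Set (Set (X × X))) (ℱ : Set (Set (Y × Y))) :
    Set (Set ((X × Y) × (X × Y))) :=
  {G | ∃ E ∈ ℰ, ∃ F ∈ ℱ, G ⊆ {p | (p.1.1, p.2.1) ∈ E ∧ (p.1.2, p.2.2) ∈ F}}

def SlowOsc {X : Type*} (ℰ : Set (Set (X × X))) (f : X → ℝ) : Prop :=
  ∀ E ∈ ℰ, ∀ ε > 0, ∃ B, Bounded ℰ B ∧ ∀ x ∉ B, ∀ a b, (x, a) ∈ E → (x, b) ∈ E → |f a - f b| ≤ ε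

def SoBounded {X : Type*} (ℰ : Set (Set (X × X))) : Prop :=
  ∀ f, SlowOsc ℰ f → ∃ B, Bounded ℰ B ∧ ∃ M, ∀ x ∉ B, |f x| ≤ M

theorem result {X Y : Type*} (ℰ : Set (Set (X × X))) (ℱ : Set (Set (Y × Y)))
    (hE : IsBallean ℰ) (hF : IsBallean ℱ) (hX : SoBounded ℰ) (hY : SoBounded ℱ) :
    SoBounded (prod ℰ ℱ) := by
  intro f hf
  obtain ⟨-, ⟨-, -, p, -⟩, -⟩ := hf _ ⟨_, hE.1, _, hF.1, subset_rfl⟩ 1 one_pos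
  have ho : ∀ E ∈ ℰ, ∀ F ∈ ℱ, ∀ ε > 0, Osc2 ℰ ℱ (fun x y => f (x, y)) E F ε :=
    fun E h F h' ε hε => osc2 (fun _ h => h) (hf _ ⟨E, h, F, h', subset_rfl⟩ ε hε)
  obtain ⟨E, h1, F, h2, q, h3⟩ := main (good_of_coarse hE.1 hE.2.2.1 hE.2.2.2.1 hE.2.2.2.2.1
    hE.2.2.2.2.2) (good_of_coarse hF.1 hF.2.2.1 hF.2.2.2.1 hF.2.2.2.2.1 hF.2.2.2.2.2) p.1 p.2
    (fun E h F h' => ⟨1, ho E h F h' 1 one_pos⟩)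
    (fun u hu => hX u fun E h ε hε => (ho E h _ hF.1 ε hε).lip hε.le (fun _ => rfl) hu)
    fun u hu => hY u fun F h ε hε => (ho _ hE.1 F h ε hε).symm.lip hε.le (fun _ => rfl) hu
  exact ⟨_, ⟨_, ⟨E, h1, F, h2, subset_rfl⟩, q, subset_rfl⟩, h3⟩

end Pool.Agent.Results.MP_bddfa7_gt.Main
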